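import Pool.Agent.Q291.HYM.Words
import Pool.Agent.Q291.MK.Thm

/-!
# The definitions of `HYM.Words` and `MK` agree
-/

namespace Pool.Agent.Q291.HYM

open Filter Topology MeasureTheory Quaternion

theorem haar_eq : haar = MK.haar := rfl
theorem tr_eq : tr = fun y : MK.G => (y : ℍ[ℝ]).re := rfl
theorem bare_eq : bare = MK.bare := rfl
theorem Cf_eq : Cf = MK.Cf := rfl
theorem sheet_eq : sheet = MK.sheet := rfl
theorem wil_eq : wil = MK.wil := rfl
theorem Ren_eq : Ren = MK.Ren := rfl
theorem ex1_eq : ex1 = MK.ex1 := rfl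
theorem ex2_eq : ex2 = MK.ex2 := rfl

theorem part_eq : part = MK.part := by
  funext w n
  induction n with
  | zero => rfl
  | succ n ih =>
    show (fun x => sheet (part w n) (part w n) (part w n) (part w n) x 1 1 1 ^ 4) = _
    rw [ih]
    rfl

theorem cex_eq : cex = MK.cex := by
  funext f φ n
  induction n with
  | zero => rfl
  | succ n ih =>
    show ex1 (f n) (cex f φ n) = _
    rw [ih]
    rfl

theorem nor_eq : nor = fun w n x => MK.part w n x / MK.part w n 1 := by
  funext w n x
  unfold nor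
  rw [part_eq]

theorem poly_eq : poly = fun p n x => ∏ i ∈ Finset.range n, (1 - p i + p i * MK.tt x) := rfl

theorem tr1_eq : tr1 = MK.tr1 := by
  funext f φ ψ n N x
  unfold tr1 MK.tr1
  rw [cex_eq, ex2_eq]

theorem tr2_eq : tr2 = MK.tr2 := by
  funext f φ ψ n N x
  unfold tr2 MK.tr2
  rw [cex_eq]

end Pool.Agent.Q291.HYM
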