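import Mathlib

/-!
# The hierarchical SU(2) lattice gauge theory in dimension four: definitions

A cell of level `0` is a plaquette. A cell of level `n + 1` has the boundary of a square of side
`2 ^ (n + 1)` and consists of four sheets with this common boundary; each sheet is a square of
`2 × 2` cells of level `n`, which share the four interior links of the sheet. This is the
hierarchical lattice on which the Migdal-Kadanoff recursion with scale factor `2` in dimension `4`
is exact.
-/

namespace Pool.Agent.Q291.HYM

open Filter Topology MeasureTheory Quaternion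

/-- The group of unit quaternions, `SU(2)`; half of the trace of `x` is the real part of `x`. -/
abbrev SU2 : Type := Metric.sphere (0 : ℍ[ℝ]) 1

noncomputable instance : MeasurableSpace SU2 := borel SU2
instance : BorelSpace SU2 := ⟨rfl⟩

/-- Half of the trace. -/
noncomputable def tr (x : SU2) : ℝ := (x : ℍ[ℝ]).re

/-- The Wilson weight of a plaquette. -/
noncomputable def bare (β : ℝ) (x : SU2) : ℝ := Real.exp (β * tr x)

/-- Class functions. -/
def Cf (f : SU2 → ℝ) : Prop := ∀ x y, f (x * y) = f (y * x)

/-- The normalised Haar measure of `SU(2)`. -/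
noncomputable def haar : Measure SU2 := Measure.haarMeasure ⊤

/-- The integral over the four interior links `v1, v2, v3, v4` of a sheet, which join its centre to
the midpoints of its sides, of the product of the weights `f1, f2, f3, f4` of its four cells. The
group elements `a1, a2, a3, a4` are the holonomies of the four arcs between the midpoints of the
sides. -/
noncomputable def sheet (f1 f2 f3 f4 : SU2 → ℝ) (a1 a2 a3 a4 : SU2) : ℝ :=
  ∫ v1, ∫ v2, ∫ v3, ∫ v4, f1 (v1 * a1 * v2⁻¹) * f2 (v2 * a2 * v3⁻¹) * f3 (v3 * a3 * v4⁻¹) *
    f4 (v4 * a4 * v1⁻¹) ∂haar ∂haar ∂haar ∂haar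

/-- The partition function of a cell of level `n` as a function of its boundary holonomy, if each
plaquette has the weight `w`. -/
noncomputable def part (w : SU2 → ℝ) : ℕ → SU2 → ℝ
  | 0 => w
  | n + 1 => fun x => sheet (part w n) (part w n) (part w n) (part w n) x 1 1 1 ^ 4

/-- The normalised partition function. -/
noncomputable def nor (w : SU2 → ℝ) (n : ℕ) (x : SU2) : ℝ := part w n x / part w n 1

/-- A polynomial bare weight. -/
noncomputable def poly (p : ℕ → ℝ) (n : ℕ) (x : SU2) : ℝ :=
  ∏ i ∈ Finset.range n, (1 - p i + p i * ((1 + tr x) / 2))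

/-- The Wilson loop: the expectation of `tr` under the density proportional to `f`. -/
noncomputable def wil (f : SU2 → ℝ) : ℝ := (∫ x, tr x * f x ∂haar) / ∫ x, f x ∂haar

/-- `m` is the renormalised coupling of the weight `f`: the curvature of its action at `1`. -/
def Ren (f : SU2 → ℝ) (m : ℝ) : Prop :=
  Tendsto (fun x : SU2 => (1 - f x / f 1) / (1 - tr x)) (𝓝[≠] 1) (𝓝 m)

/-- The conditional expectation of the observable `φ` of one of the four cells of a sheet, given
the boundary holonomy `x` of the sheet, if each cell has the weight `f`. -/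
noncomputable def ex1 (f φ : SU2 → ℝ) (x : SU2) : ℝ :=
  sheet (fun y => φ y * f y) f f f x 1 1 1 / sheet f f f f x 1 1 1

/-- The same for the product of observables `φ` and `ψ` of two of the four cells. -/
noncomputable def ex2 (f φ ψ : SU2 → ℝ) (x : SU2) : ℝ :=
  sheet (fun y => φ y * f y) (fun y => ψ y * f y) f f x 1 1 1 / sheet f f f f x 1 1 1

/-- The conditional expectation of an observable `φ` of a cell of level `0` given the boundary
holonomy of the cell of level `n` which contains it, if the cells of level `i` have the
weights `f i`. -/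
noncomputable def cex (f : ℕ → SU2 → ℝ) (φ : SU2 → ℝ) : ℕ → SU2 → ℝ
  | 0 => φ
  | n + 1 => ex1 (f n) (cex f φ n)

/-- Truncated correlation, given the boundary holonomy `x` of a cell of level `n + 1 + N`, of two
observables `φ` and `ψ` of cells of level `0` which lie in two different cells of level `n` of the
same sheet of a cell of level `n + 1`. -/
noncomputable def tr1 (f : ℕ → SU2 → ℝ) (φ ψ : SU2 → ℝ) (n N : ℕ) (x : SU2) : ℝ :=
  cex (fun i => f (n + 1 + i)) (ex2 (f n) (cex f φ n) (cex f ψ n)) N x -
    cex f φ (n + 1 + N) x * cex f ψ (n + 1 + N) x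

/-- The same for two cells which lie in different sheets of a cell of level `n + 1`. -/
noncomputable def tr2 (f : ℕ → SU2 → ℝ) (φ ψ : SU2 → ℝ) (n N : ℕ) (x : SU2) : ℝ :=
  cex (fun i => f (n + 1 + i)) (fun y => cex f φ (n + 1) y * cex f ψ (n + 1) y) N x -
    cex f φ (n + 1 + N) x * cex f ψ (n + 1 + N) x

end Pool.Agent.Q291.HYM
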